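import Mathlib

/-!
# Orderable and pro-orderable groups, the first-order language of groups
-/

universe u v

namespace Pool.Agent.Helper55.Ord

open FirstOrder

/-! ## Ordered groups -/

/-- A partial ordering of a group: a partial order relation invariant under multiplication on both
sides. -/
structure IsPartialOrdering (G : Type u) [Group G] (le : G → G → Prop) : Prop where
  /-- `le` is a partial order. -/
  isPartialOrder : IsPartialOrder G le
  /-- `le` is invariant under multiplication on both sides. -/
  mul_le : ∀ a b x y : G, le a b → le (x * a * y) (x * b * y)

/-- A linear ordering of a group: a partial ordering in which any two elements are comparable. -/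
structure IsLinearOrdering (G : Type u) [Group G] (le : G → G → Prop) : Prop extends
    IsPartialOrdering G le where
  /-- any two elements are comparable. -/
  total : ∀ a b : G, le a b ∨ le b a

/-- A group is orderable if it admits a (two-sided invariant) linear ordering. -/
def Orderable (G : Type u) [Group G] : Prop :=
  ∃ le : G → G → Prop, IsLinearOrdering G le

/-- A group is pro-orderable if every partial ordering extends to a linear ordering. -/
def ProOrderable (G : Type u) [Group G] : Prop :=
  ∀ le : G → G → Prop, IsPartialOrdering G le →
    ∃ le' : G → G → Prop, IsLinearOrdering G le' ∧ ∀ a b : G, le a b → le' a b

/-! ## The first-order language of groups -/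

/-- The function symbols of the language of groups: `1`, inverse and multiplication. -/
inductive GroupFunc : ℕ → Type
  | one : GroupFunc 0
  | inv : GroupFunc 1
  | mul : GroupFunc 2

/-- The first-order language of groups. -/
def groupLang : Language := ⟨GroupFunc, fun _ => Empty⟩

/-- Every group is a structure for the language of groups. -/
instance groupStructure (G : Type u) [Group G] : groupLang.Structure G where
  funMap
    | .one, _ => 1
    | .inv, v => (v 0)⁻¹
    | .mul, v => v 0 * v 1
  RelMap := fun r _ => r.elim
end Pool.Agent.Helper55.Ord
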