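import Pool.Agent.Helper55.Ord.Defs

/-!
# Pro-orderable groups do not generate the class of orderable groups: the sentence and the group
-/

universe u v

namespace Pool.Agent.Helper55.Ord

open FirstOrder

/-! ## The sentence -/

/-- multiplication of terms -/
def tmul {α : Type} (a b : groupLang.Term α) : groupLang.Term α :=
  Language.Functions.apply₂ (L := groupLang) GroupFunc.mul a b

/-- inverse of a term -/
def tinv {α : Type} (a : groupLang.Term α) : groupLang.Term α :=
  Language.Functions.apply₁ (L := groupLang) GroupFunc.inv a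

/-- the constant `1` -/
def tone {α : Type} : groupLang.Term α :=
  Language.Term.func (L := groupLang) GroupFunc.one Fin.elim0

@[simp] lemma realize_tmul {α : Type} {G : Type u} [Group G] (v : α → G)
    (a b : groupLang.Term α) : (tmul a b).realize v = a.realize v * b.realize v := by
  rfl

@[simp] lemma realize_tinv {α : Type} {G : Type u} [Group G] (v : α → G)
    (a : groupLang.Term α) : (tinv a).realize v = (a.realize v)⁻¹ := by
  rfl

@[simp] lemma realize_tone {α : Type} {G : Type u} [Group G] (v : α → G) :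
    (tone : groupLang.Term α).realize v = 1 := by
  rfl

/-- `cc p s g h = g⁻¹ p g · (h s² h⁻¹ s⁻²)` -/
def cc {G : Type u} [Group G] (p s g h : G) : G :=
  (g⁻¹ * p * g) * (h * (s * s) * h⁻¹ * (s * s)⁻¹)

/-- term version of `cc` -/
def tcc {α : Type} (p s g h : groupLang.Term α) : groupLang.Term α :=
  tmul (tmul (tmul (tinv g) p) g)
    (tmul (tmul (tmul h (tmul s s)) (tinv h)) (tinv (tmul s s)))

@[simp] lemma realize_tcc {α : Type} {G : Type u} [Group G] (v : α → G)
    (p s g h : groupLang.Term α) :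
    (tcc p s g h).realize v = cc (p.realize v) (s.realize v) (g.realize v) (h.realize v) := by
  simp [tcc, cc]

/-- The de Bruijn variable. -/
abbrev vr {n : ℕ} (i : Fin n) : groupLang.Term (Empty ⊕ Fin n) := Language.Term.var (Sum.inr i)

/-- The positive form of the sentence. -/
def theta : groupLang.Sentence :=
  -- `p = 0, s = 1, x = 2, c = 3, d = 4`
  Language.BoundedFormula.ex <| .ex <| .ex <| .ex <| .ex <|
    -- closed under multiplication
    ((Language.BoundedFormula.all <| .all <| .all <| .all <| .ex <| .ex <|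
      (tmul (tcc (vr (n := 11) 0) (vr 1) (vr 5) (vr 6)) (tcc (vr 0) (vr 1) (vr 7) (vr 8))).bdEqual
        (tcc (vr 0) (vr 1) (vr 9) (vr 10))) ⊓
    -- closed under conjugation
    ((Language.BoundedFormula.all <| .all <| .all <| .ex <| .ex <|
      (tmul (tmul (tinv (vr (n := 10) 7)) (tcc (vr 0) (vr 1) (vr 5) (vr 6))) (vr 7)).bdEqual
        (tcc (vr 0) (vr 1) (vr 8) (vr 9))) ⊓
    -- does not contain 1
    ((Language.BoundedFormula.all <| .all <|
      ((tcc (vr (n := 7) 0) (vr 1) (vr 5) (vr 6)).bdEqual tone).not) ⊓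
    -- contains x * x^c
    ((Language.BoundedFormula.ex <| .ex <|
      (tmul (vr (n := 7) 2) (tmul (tmul (tinv (vr 3)) (vr 2)) (vr 3))).bdEqual
        (tcc (vr 0) (vr 1) (vr 5) (vr 6))) ⊓
    -- contains x⁻¹ * (x⁻¹)^d
    (Language.BoundedFormula.ex <| .ex <|
      (tmul (tinv (vr (n := 7) 2)) (tmul (tmul (tinv (vr 4)) (tinv (vr 2))) (vr 4))).bdEqual
        (tcc (vr 0) (vr 1) (vr 5) (vr 6)))))))

/-- The group-theoretic meaning of `theta`. -/
def Theta (G : Type u) [Group G] : Prop :=
  ∃ p s x c d : G,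
    (∀ g h g' h' : G, ∃ g'' h'' : G, cc p s g h * cc p s g' h' = cc p s g'' h'') ∧
    (∀ g h k : G, ∃ g' h' : G, k⁻¹ * cc p s g h * k = cc p s g' h') ∧
    (∀ g h : G, cc p s g h ≠ 1) ∧
    (∃ g h : G, x * (c⁻¹ * x * c) = cc p s g h) ∧
    (∃ g h : G, x⁻¹ * (d⁻¹ * x⁻¹ * d) = cc p s g h)

lemma realize_theta (G : Type u) [Group G] : G ⊨ theta ↔ Theta G := by
  simp only [Theta, theta, Language.Sentence.Realize, Language.Formula.Realize,
    Language.BoundedFormula.realize_ex, Language.BoundedFormula.realize_all,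
    Language.BoundedFormula.realize_inf, Language.BoundedFormula.realize_bdEqual,
    Language.BoundedFormula.realize_not, realize_tmul, realize_tinv, realize_tone, realize_tcc,
    Language.Term.realize_var, Sum.elim_inr, ne_eq]
  rfl


/-! ## The sentence `¬ theta` holds in pro-orderable groups -/

lemma not_Theta_of_proOrderable (H : Type u) [Group H] (hH : ProOrderable H) : ¬ Theta H := by
  rintro ⟨p, s, x, c, d, hmul, hconj, hone, ⟨g₁, h₁, hx⟩, ⟨g₂, h₂, hx'⟩⟩
  -- the partial ordering
  let P : H → Prop := fun y => ∃ g h, y = cc p s g h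
  have Pmul : ∀ y z, P y → P z → P (y * z) := by
    rintro _ _ ⟨g, h, rfl⟩ ⟨g', h', rfl⟩
    exact hmul g h g' h'
  have Pconj : ∀ y k, P y → P (k⁻¹ * y * k) := by
    rintro _ k ⟨g, h, rfl⟩
    exact hconj g h k
  have Pone : ¬ P 1 := by
    rintro ⟨g, h, e⟩
    exact hone g h e.symm
  let le : H → H → Prop := fun a b => a = b ∨ P (a⁻¹ * b)
  have hle : IsPartialOrdering H le := by
    refine ⟨?_, ?_⟩
    · refine { refl := fun a => Or.inl rfl, trans := ?_, antisymm := ?_ }
      · rintro a b e (rfl | hab) (rfl | hbe)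
        · exact Or.inl rfl
        · exact Or.inr hbe
        · exact Or.inr hab
        · right
          have := Pmul _ _ hab hbe
          simpa [mul_assoc] using this
      · rintro a b (rfl | hab) (h | hba)
        · rfl
        · rfl
        · exact h.symm
        · exfalso
          have := Pmul _ _ hab hba
          apply Pone
          simpa [mul_assoc] using this
    · rintro a b y z (rfl | hab)
      · exact Or.inl rfl
      · right
        have := Pconj _ z hab
        have e : (y * a * z)⁻¹ * (y * b * z) = z⁻¹ * (a⁻¹ * b) * z := by group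
        rw [e]
        exact this
  obtain ⟨le', hle', hext⟩ := hH le hle
  have hpos : ∀ y, P y → le' 1 y ∧ ¬ le' y 1 := by
    intro y hy
    have h1 : le' 1 y := hext 1 y (Or.inr (by simpa using hy))
    refine ⟨h1, fun h2 => ?_⟩
    have := hle'.isPartialOrder.antisymm _ _ h1 h2
    exact Pone (this ▸ hy)
  have h1 := (hpos _ ⟨g₁, h₁, hx⟩).2
  have h2 := (hpos _ ⟨g₂, h₂, hx'⟩).2
  rcases hle'.total x 1 with h | h
  · apply h1
    have a1 : le' (c⁻¹ * x * c) 1 := by
      have := hle'.mul_le x 1 c⁻¹ c h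
      simpa using this
    have a2 : le' (x * (c⁻¹ * x * c)) x := by
      have := hle'.mul_le _ _ x 1 a1
      simpa [mul_assoc] using this
    exact hle'.isPartialOrder.trans _ _ _ a2 h
  · apply h2
    have a0 : le' x⁻¹ 1 := by
      have := hle'.mul_le _ _ x⁻¹ 1 h
      simpa using this
    have a1 : le' (d⁻¹ * x⁻¹ * d) 1 := by
      have := hle'.mul_le _ _ d⁻¹ d a0
      simpa using this
    have a2 : le' (x⁻¹ * (d⁻¹ * x⁻¹ * d)) x⁻¹ := by
      have := hle'.mul_le _ _ x⁻¹ 1 a1
      simpa [mul_assoc] using this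
    exact hle'.isPartialOrder.trans _ _ _ a2 a0


/-! ## The group -/

/-- `ep i v` is the sum of the values of `v` at the integers of the same parity as `i`. -/
noncomputable def ep (i : ℤ) : (ℤ →₀ ℝ) →+ ℝ :=
  Finsupp.liftAddHom (fun j => if Even (j - i) then AddMonoidHom.id ℝ else 0)

lemma ep_single (i j : ℤ) (c : ℝ) : ep i (Finsupp.single j c) = if Even (j - i) then c else 0 := by
  rw [ep, Finsupp.liftAddHom_apply_single]
  split_ifs <;> rfl

/-- the shift by `k` -/
noncomputable def sh (k : ℤ) : (ℤ →₀ ℝ) →+ (ℤ →₀ ℝ) :=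
  (Finsupp.domCongr (Equiv.addRight k) : (ℤ →₀ ℝ) ≃+ (ℤ →₀ ℝ)).toAddMonoidHom

@[simp] lemma sh_apply (k : ℤ) (v : ℤ →₀ ℝ) (i : ℤ) : sh k v i = v (i - k) := by
  simp [sh, sub_eq_add_neg]

lemma sh_single (k j : ℤ) (c : ℝ) :
    sh k (Finsupp.single j c) = Finsupp.single (j + k) c := by
  simp [sh]

lemma ep_sh (k i : ℤ) (v : ℤ →₀ ℝ) : ep i (sh k v) = ep (i - k) v := by
  induction v using Finsupp.induction_linear with
  | zero => simp
  | add f g hf hg => simp [hf, hg]
  | single j c =>
    rw [sh_single, ep_single, ep_single]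
    have : j + k - i = j - (i - k) := by ring
    rw [this]

/-- scaling of the coordinates -/
noncomputable def D (m : ℤ →₀ ℝ) : (ℤ →₀ ℝ) →+ (ℤ →₀ ℝ) where
  toFun v := Finsupp.onFinset v.support (fun i => Real.exp (ep i m) * v i) (by
    intro i hi
    rw [Finsupp.mem_support_iff]
    intro h
    exact hi (by rw [h, mul_zero]))
  map_zero' := by ext i; simp
  map_add' v w := by ext i; simp [mul_add]

@[simp] lemma D_apply (m v : ℤ →₀ ℝ) (i : ℤ) : D m v i = Real.exp (ep i m) * v i := rfl

lemma D_single (m : ℤ →₀ ℝ) (j : ℤ) (c : ℝ) :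
    D m (Finsupp.single j c) = Finsupp.single j (Real.exp (ep j m) * c) := by
  ext i
  rw [D_apply, Finsupp.single_apply, Finsupp.single_apply]
  split_ifs with h
  · rw [h]
  · simp

lemma ep_congr {i j : ℤ} (h : Even (i - j)) (m : ℤ →₀ ℝ) : ep i m = ep j m := by
  induction m using Finsupp.induction_linear with
  | zero => simp
  | add f g hf hg => simp [hf, hg]
  | single l c =>
    rw [ep_single, ep_single]
    have : Even (l - i) ↔ Even (l - j) := by
      have e : l - j = (l - i) + (i - j) := by ring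
      rw [e, Int.even_add]
      simp [h]
    simp [this]

lemma ep_D (m v : ℤ →₀ ℝ) (i : ℤ) : ep i (D m v) = Real.exp (ep i m) * ep i v := by
  induction v using Finsupp.induction_linear with
  | zero => simp
  | add f g hf hg => simp [hf, hg, mul_add]
  | single j c =>
    rw [D_single, ep_single, ep_single]
    split_ifs with h
    · rw [ep_congr h]
    · simp

/-- The underlying set of the group: triples `(v, m, k)`. -/
@[ext] structure GG where
  /-- the bottom layer -/
  v : ℤ →₀ ℝ
  /-- the middle layer -/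
  m : ℤ →₀ ℝ
  /-- the top layer -/
  k : ℤ

namespace GG

noncomputable instance : Mul GG :=
  ⟨fun a b => ⟨a.v + D a.m (sh a.k b.v), a.m + sh a.k b.m, a.k + b.k⟩⟩

noncomputable instance : One GG := ⟨⟨0, 0, 0⟩⟩

noncomputable instance : Inv GG :=
  ⟨fun a => ⟨- sh (-a.k) (D (-a.m) a.v), - sh (-a.k) a.m, -a.k⟩⟩

@[simp] lemma mul_v (a b : GG) : (a * b).v = a.v + D a.m (sh a.k b.v) := rfl
@[simp] lemma mul_m (a b : GG) : (a * b).m = a.m + sh a.k b.m := rfl
@[simp] lemma mul_k (a b : GG) : (a * b).k = a.k + b.k := rfl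
@[simp] lemma one_v : (1 : GG).v = 0 := rfl
@[simp] lemma one_m : (1 : GG).m = 0 := rfl
@[simp] lemma one_k : (1 : GG).k = 0 := rfl
@[simp] lemma inv_v (a : GG) : (a⁻¹).v = - sh (-a.k) (D (-a.m) a.v) := rfl
@[simp] lemma inv_m (a : GG) : (a⁻¹).m = - sh (-a.k) a.m := rfl
@[simp] lemma inv_k (a : GG) : (a⁻¹).k = -a.k := rfl

noncomputable instance : Group GG :=
  Group.ofLeftAxioms
    (by
      intro a b c
      ext i
      · simp only [mul_v, mul_m, mul_k, Finsupp.add_apply, D_apply, sh_apply, map_add, ep_sh,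
          Real.exp_add]
        rw [show i - (a.k + b.k) = i - a.k - b.k by ring]
        ring
      · simp only [mul_m, mul_k, Finsupp.add_apply, sh_apply, map_add]
        rw [show i - (a.k + b.k) = i - a.k - b.k by ring]
        ring
      · simp only [mul_k]
        ring)
    (by
      intro a
      ext i
      · simp
      · simp
      · simp)
    (by
      intro a
      ext i
      · simp [ep_sh]
      · simp
      · simp)

end GG

/-! ## Orderability of the group -/

/-- A group with a total normal cone is orderable. -/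
lemma orderable_of_cone {G : Type u} [Group G] (P : G → Prop)
    (Pmul : ∀ y z, P y → P z → P (y * z)) (Pconj : ∀ y k, P y → P (k⁻¹ * y * k))
    (Pone : ¬ P 1) (Ptot : ∀ y, y ≠ 1 → P y ∨ P y⁻¹) : Orderable G := by
  refine ⟨fun a b => a = b ∨ P (a⁻¹ * b), ⟨⟨?_, ?_⟩, ?_⟩⟩
  · refine { refl := fun a => Or.inl rfl, trans := ?_, antisymm := ?_ }
    · rintro a b e (rfl | hab) (rfl | hbe)
      · exact Or.inl rfl
      · exact Or.inr hbe
      · exact Or.inr hab
      · right
        have := Pmul _ _ hab hbe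
        simpa [mul_assoc] using this
    · rintro a b (rfl | hab) (h | hba)
      · rfl
      · rfl
      · exact h.symm
      · exfalso
        have := Pmul _ _ hab hba
        apply Pone
        simpa [mul_assoc] using this
  · rintro a b y z (rfl | hab)
    · exact Or.inl rfl
    · right
      have := Pconj _ z hab
      have e : (y * a * z)⁻¹ * (y * b * z) = z⁻¹ * (a⁻¹ * b) * z := by group
      rw [e]
      exact this
  · intro a b
    by_cases h : a = b
    · exact Or.inl (Or.inl h)
    · have h' : a⁻¹ * b ≠ 1 := by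
        intro e
        exact h (inv_mul_eq_one.mp e)
      rcases Ptot _ h' with h1 | h1
      · exact Or.inl (Or.inr h1)
      · right
        right
        simpa using h1

/-- the first nonzero value is positive -/
def IsPos (v : ℤ →₀ ℝ) : Prop := ∃ i, 0 < v i ∧ ∀ j < i, v j = 0

lemma not_isPos_zero : ¬ IsPos 0 := by
  rintro ⟨i, hi, -⟩
  simp at hi

lemma IsPos.add {v w : ℤ →₀ ℝ} (hv : IsPos v) (hw : IsPos w) : IsPos (v + w) := by
  obtain ⟨i, hi, hi'⟩ := hv
  obtain ⟨j, hj, hj'⟩ := hw
  rcases lt_trichotomy i j with h | h | h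
  · refine ⟨i, ?_, fun l hl => ?_⟩
    · rw [Finsupp.add_apply, hj' i h, add_zero]
      exact hi
    · rw [Finsupp.add_apply, hi' l hl, hj' l (hl.trans h), add_zero]
  · subst h
    refine ⟨i, ?_, fun l hl => ?_⟩
    · rw [Finsupp.add_apply]
      exact add_pos hi hj
    · rw [Finsupp.add_apply, hi' l hl, hj' l hl, add_zero]
  · refine ⟨j, ?_, fun l hl => ?_⟩
    · rw [Finsupp.add_apply, hi' j h, zero_add]
      exact hj
    · rw [Finsupp.add_apply, hj' l hl, hi' l (hl.trans h), add_zero]

lemma IsPos.sh {v : ℤ →₀ ℝ} (hv : IsPos v) (k : ℤ) : IsPos (sh k v) := by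
  obtain ⟨i, hi, hi'⟩ := hv
  refine ⟨i + k, ?_, fun l hl => ?_⟩
  · rw [sh_apply, add_sub_cancel_right]
    exact hi
  · rw [sh_apply]
    exact hi' _ (by linarith)

lemma IsPos.D {v : ℤ →₀ ℝ} (hv : IsPos v) (m : ℤ →₀ ℝ) : IsPos (D m v) := by
  obtain ⟨i, hi, hi'⟩ := hv
  refine ⟨i, ?_, fun l hl => ?_⟩
  · rw [D_apply]
    exact mul_pos (Real.exp_pos _) hi
  · rw [D_apply, hi' l hl, mul_zero]

lemma isPos_total {v : ℤ →₀ ℝ} (hv : v ≠ 0) : IsPos v ∨ IsPos (-v) := by
  have hne : v.support.Nonempty := Finsupp.support_nonempty_iff.mpr hv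
  set i := v.support.min' hne with hi
  have h1 : v i ≠ 0 := Finsupp.mem_support_iff.mp (v.support.min'_mem hne)
  have h2 : ∀ j < i, v j = 0 := by
    intro j hj
    by_contra h
    exact absurd (v.support.min'_le j (Finsupp.mem_support_iff.mpr h)) (not_le.mpr hj)
  rcases lt_or_gt_of_ne h1 with h | h
  · right
    refine ⟨i, ?_, fun j hj => ?_⟩
    · rw [Finsupp.neg_apply]
      exact neg_pos.mpr h
    · rw [Finsupp.neg_apply, h2 j hj, neg_zero]
  · left
    exact ⟨i, h, h2⟩

/-- the positive cone of a linear ordering of the group -/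
def GPos (g : GG) : Prop :=
  0 < g.k ∨ (g.k = 0 ∧ (IsPos g.m ∨ (g.m = 0 ∧ IsPos g.v)))

@[simp] lemma sh_zero_left (v : ℤ →₀ ℝ) : sh 0 v = v := by ext i; simp

@[simp] lemma D_zero_left (v : ℤ →₀ ℝ) : D 0 v = v := by ext i; simp

lemma sh_sh (a b : ℤ) (v : ℤ →₀ ℝ) : sh a (sh b v) = sh (a + b) v := by
  ext i
  simp only [sh_apply]
  congr 1
  ring

theorem orderable_GG : Orderable GG := by
  apply orderable_of_cone GPos
  · rintro y z hy hz
    rcases hy with hy | ⟨hyk, hy⟩
    · rcases hz with hz | ⟨hzk, hz⟩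
      · left
        rw [GG.mul_k]
        exact add_pos hy hz
      · left
        rw [GG.mul_k, hzk, add_zero]
        exact hy
    · rcases hz with hz | ⟨hzk, hz⟩
      · left
        rw [GG.mul_k, hyk, zero_add]
        exact hz
      · right
        refine ⟨by rw [GG.mul_k, hyk, hzk, add_zero], ?_⟩
        rw [GG.mul_m, GG.mul_v, hyk, sh_zero_left, sh_zero_left]
        rcases hy with hy | ⟨hym, hy⟩
        · rcases hz with hz | ⟨hzm, hz⟩
          · left
            exact hy.add hz
          · left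
            rw [hzm, add_zero]
            exact hy
        · rcases hz with hz | ⟨hzm, hz⟩
          · left
            rw [hym, zero_add]
            exact hz
          · right
            refine ⟨by rw [hym, hzm, add_zero], ?_⟩
            rw [hym, D_zero_left]
            exact hy.add hz
  · intro y g hy
    have e1 : (g⁻¹ * y * g).k = y.k := by simp
    have e2 : y.k = 0 → (g⁻¹ * y * g).m = sh (-g.k) y.m := by
      intro h
      ext i
      simp [h]
    have e3 : y.k = 0 → y.m = 0 → (g⁻¹ * y * g).v = sh (-g.k) (D (-g.m) y.v) := by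
      intro h h'
      ext i
      simp [h, h', ep_sh]
    rcases hy with hy | ⟨hyk, hy⟩
    · left
      rw [e1]
      exact hy
    · right
      refine ⟨by rw [e1, hyk], ?_⟩
      rw [e2 hyk]
      rcases hy with hy | ⟨hym, hy⟩
      · left
        exact hy.sh _
      · right
        refine ⟨by rw [hym, map_zero], ?_⟩
        rw [e3 hyk hym]
        exact (hy.D _).sh _
  · rintro (h | ⟨-, h | ⟨-, h⟩⟩)
    · simp at h
    · exact not_isPos_zero h
    · exact not_isPos_zero h
  · intro y hy
    rcases lt_trichotomy y.k 0 with h | h | h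
    · right
      left
      simpa using h
    · by_cases hm : y.m = 0
      · have hv : y.v ≠ 0 := by
          intro hv
          apply hy
          ext i
          · simp [hv]
          · simp [hm]
          · simp [h]
        rcases isPos_total hv with hv | hv
        · left
          right
          exact ⟨h, Or.inr ⟨hm, hv⟩⟩
        · right
          right
          refine ⟨by simp [h], Or.inr ⟨by simp [hm], ?_⟩⟩
          have : (y⁻¹).v = -y.v := by simp [h, hm]
          rw [this]
          exact hv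
      · rcases isPos_total hm with hm | hm
        · left
          right
          exact ⟨h, Or.inl hm⟩
        · right
          right
          refine ⟨by simp [h], Or.inl ?_⟩
          have : (y⁻¹).m = -y.m := by simp [h]
          rw [this]
          exact hm
    · left
      left
      exact h

/-! ## The sentence `theta` holds in the group -/

/-- If both parity sums of `w` vanish then `w = u - sh 2 u` for some `u`. -/
lemma exists_eq_sub_sh {w : ℤ →₀ ℝ} (h0 : ep 0 w = 0) (h1 : ep 1 w = 0) :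
    ∃ u : ℤ →₀ ℝ, u - sh 2 u = w := by
  let I : AddSubgroup (ℤ →₀ ℝ) := (AddMonoidHom.id (ℤ →₀ ℝ) - sh 2).range
  have hI : ∀ u : ℤ →₀ ℝ, u - sh 2 u ∈ I := fun u => ⟨u, rfl⟩
  have hs : ∀ (q r : ℤ) (c : ℝ), Finsupp.single (2 * q + r) c - Finsupp.single r c ∈ I := by
    intro q r c
    induction q using Int.induction_on with
    | zero => simp
    | succ q ih =>
      have h := hI (Finsupp.single (2 * (q : ℤ) + r) c)
      rw [sh_single] at h
      have e : Finsupp.single (2 * ((q : ℤ) + 1) + r) c - Finsupp.single r c =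
          (Finsupp.single (2 * (q : ℤ) + r) c - Finsupp.single r c) -
          (Finsupp.single (2 * (q : ℤ) + r) c - Finsupp.single (2 * (q : ℤ) + r + 2) c) := by
        rw [show 2 * ((q : ℤ) + 1) + r = 2 * (q : ℤ) + r + 2 by ring]
        abel
      rw [e]
      exact I.sub_mem ih h
    | pred q ih =>
      have h := hI (Finsupp.single (2 * (-(q : ℤ) - 1) + r) c)
      rw [sh_single] at h
      have e : Finsupp.single (2 * (-(q : ℤ) - 1) + r) c - Finsupp.single r c =
          (Finsupp.single (2 * -(q : ℤ) + r) c - Finsupp.single r c) +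
          (Finsupp.single (2 * (-(q : ℤ) - 1) + r) c -
            Finsupp.single (2 * (-(q : ℤ) - 1) + r + 2) c) := by
        rw [show 2 * (-(q : ℤ) - 1) + r + 2 = 2 * -(q : ℤ) + r by ring]
        abel
      rw [e]
      exact I.add_mem ih h
  have key : ∀ v : ℤ →₀ ℝ,
      v - (Finsupp.single 0 (ep 0 v) + Finsupp.single 1 (ep 1 v)) ∈ I := by
    intro v
    induction v using Finsupp.induction_linear with
    | zero => simp
    | add f g hf hg =>
      have e : (f + g) - (Finsupp.single 0 (ep 0 (f + g)) + Finsupp.single 1 (ep 1 (f + g))) =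
          (f - (Finsupp.single 0 (ep 0 f) + Finsupp.single 1 (ep 1 f))) +
          (g - (Finsupp.single 0 (ep 0 g) + Finsupp.single 1 (ep 1 g))) := by
        rw [map_add, map_add, Finsupp.single_add, Finsupp.single_add]
        abel
      rw [e]
      exact I.add_mem hf hg
    | single j c =>
      rw [ep_single, ep_single]
      rcases Int.even_or_odd' j with ⟨q, hq | hq⟩
      · have a0 : Even (j - 0) := by rw [hq]; simp
        have a1 : ¬ Even (j - 1) := by
          rw [hq, Int.even_sub]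
          simp
        rw [if_pos a0, if_neg a1, Finsupp.single_zero, add_zero]
        have := hs q 0 c
        rw [add_zero, ← hq] at this
        exact this
      · have a0 : ¬ Even (j - 0) := by
          rw [hq, sub_zero, Int.even_add]
          simp
        have a1 : Even (j - 1) := by
          rw [hq, add_sub_cancel_right]
          simp
        rw [if_pos a1, if_neg a0, Finsupp.single_zero, zero_add]
        have := hs q 1 c
        rw [← hq] at this
        exact this
  have := key w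
  rw [h0, h1, Finsupp.single_zero, Finsupp.single_zero, add_zero, sub_zero] at this
  obtain ⟨u, hu⟩ := this
  exact ⟨u, hu⟩

lemma D_eq_self {m : ℤ →₀ ℝ} (hm : ∀ i, ep i m = 0) (v : ℤ →₀ ℝ) : D m v = v := by
  ext i
  simp [hm i]

lemma mul_inv_formula {a b : GG} (hk : a.k = b.k) (hm : ∀ i, ep i a.m = ep i b.m) :
    a * b⁻¹ = ⟨a.v - b.v, a.m - b.m, 0⟩ := by
  rw [mul_inv_eq_iff_eq_mul]
  ext i
  · rw [GG.mul_v]
    have : D (a.m - b.m) (sh 0 b.v) = b.v := by
      rw [sh_zero_left]
      apply D_eq_self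
      intro i
      rw [map_sub, hm i, sub_self]
    simp only
    rw [this]
    simp
  · simp
  · simp [hk]

/-- the parameters -/
noncomputable def p0 : GG := ⟨Finsupp.single 0 1 + Finsupp.single 1 1, 0, 0⟩

/-- the parameters -/
noncomputable def s0 : GG := ⟨0, 0, 1⟩

lemma s0_mul_s0 : s0 * s0 = ⟨0, 0, 2⟩ := by
  ext i
  · simp [s0]
  · simp [s0]
  · simp [s0]

lemma comm_formula (h : GG) :
    h * (s0 * s0) * h⁻¹ * (s0 * s0)⁻¹ = ⟨h.v - sh 2 h.v, h.m - sh 2 h.m, 0⟩ := by
  have e : h * (s0 * s0) * h⁻¹ * (s0 * s0)⁻¹ = (h * (s0 * s0)) * ((s0 * s0) * h)⁻¹ := by group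
  rw [e, s0_mul_s0]
  have hk : (h * (⟨0, 0, 2⟩ : GG)).k = ((⟨0, 0, 2⟩ : GG) * h).k := by
    simp [add_comm]
  have hm : ∀ i, ep i (h * (⟨0, 0, 2⟩ : GG)).m = ep i ((⟨0, 0, 2⟩ : GG) * h).m := by
    intro i
    simp only [GG.mul_m, map_zero, add_zero, zero_add, ep_sh]
    apply ep_congr
    rw [sub_sub_cancel]
    exact even_two
  rw [mul_inv_formula hk hm]
  simp

lemma conj_formula (g : GG) (v : ℤ →₀ ℝ) :
    g⁻¹ * ⟨v, 0, 0⟩ * g = ⟨D (g⁻¹).m (sh (g⁻¹).k v), 0, 0⟩ := by
  have e : g⁻¹ * ⟨v, 0, 0⟩ * g = (g⁻¹ * ⟨v, 0, 0⟩) * (g⁻¹)⁻¹ := by group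
  rw [e, mul_inv_formula (by simp) (by simp)]
  simp

lemma conj_formula' (t : GG) (v : ℤ →₀ ℝ) :
    t * ⟨v, 0, 0⟩ * t⁻¹ = ⟨D t.m (sh t.k v), 0, 0⟩ := by
  have := conj_formula t⁻¹ v
  rw [inv_inv] at this
  exact this

lemma cc_formula (g h : GG) :
    cc p0 s0 g h = ⟨D (g⁻¹).m (sh (g⁻¹).k p0.v) + (h.v - sh 2 h.v), h.m - sh 2 h.m, 0⟩ := by
  rw [cc, comm_formula, p0, conj_formula]
  ext i
  · simp
  · simp
  · simp

/-- the definable cone -/
def P0 (y : GG) : Prop := y.k = 0 ∧ (∀ i, ep i y.m = 0) ∧ ∀ i, 0 < ep i y.v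

lemma ep_p0 (i : ℤ) : ep i p0.v = 1 := by
  rw [p0, map_add, ep_single, ep_single]
  rcases Int.even_or_odd i with h | h
  · have a0 : Even (0 - i) := by simpa using h
    have a1 : ¬ Even (1 - i) := by
      rw [Int.even_sub]
      simp [h]
    rw [if_pos a0, if_neg a1, add_zero]
  · have h' : ¬ Even i := by simpa using h
    have a0 : ¬ Even (0 - i) := by simpa using h
    have a1 : Even (1 - i) := by
      rw [Int.even_sub]
      simp [h']
    rw [if_pos a1, if_neg a0, zero_add]

lemma ep_sub_sh_two (i : ℤ) (u : ℤ →₀ ℝ) : ep i (u - sh 2 u) = 0 := by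
  rw [map_sub, ep_sh, sub_eq_zero]
  apply ep_congr
  rw [sub_sub_cancel]
  exact even_two

lemma P0_iff (y : GG) : (∃ g h, y = cc p0 s0 g h) ↔ P0 y := by
  constructor
  · rintro ⟨g, h, rfl⟩
    rw [cc_formula]
    refine ⟨rfl, fun i => ep_sub_sh_two i _, fun i => ?_⟩
    simp only
    rw [map_add, ep_sub_sh_two, add_zero, ep_D, ep_sh, ep_p0, mul_one]
    exact Real.exp_pos _
  · rintro ⟨hk, hm, hv⟩
    let e : ℤ →₀ ℝ :=
      Finsupp.single 0 (Real.log (ep 0 y.v)) + Finsupp.single 1 (Real.log (ep 1 y.v))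
    have he0 : ep 0 e = Real.log (ep 0 y.v) := by
      simp only [e, map_add]
      rw [ep_single, ep_single]
      simp
    have he1 : ep 1 e = Real.log (ep 1 y.v) := by
      simp only [e, map_add]
      rw [ep_single, ep_single]
      simp
    let q : ℤ →₀ ℝ := D e p0.v
    have hq0 : ep 0 q = ep 0 y.v := by
      simp only [q]
      rw [ep_D, he0, ep_p0, Real.exp_log (hv 0), mul_one]
    have hq1 : ep 1 q = ep 1 y.v := by
      simp only [q]
      rw [ep_D, he1, ep_p0, Real.exp_log (hv 1), mul_one]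
    obtain ⟨u, hu⟩ := exists_eq_sub_sh (w := y.v - q) (by rw [map_sub, hq0, sub_self])
      (by rw [map_sub, hq1, sub_self])
    obtain ⟨n, hn⟩ := exists_eq_sub_sh (w := y.m) (hm 0) (hm 1)
    refine ⟨(⟨0, e, 0⟩ : GG)⁻¹, ⟨u, n, 0⟩, ?_⟩
    rw [cc_formula]
    simp only [inv_inv]
    rw [hu, hn]
    ext i
    · simp [q]
    · simp
    · simp [hk]

/-- the parameters -/
noncomputable def xv : ℤ →₀ ℝ := Finsupp.single 0 1 - Finsupp.single 1 1

lemma ep_xv_even {i : ℤ} (h : Even i) : ep i xv = 1 := by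
  have a0 : Even (0 - i) := by simpa using h
  have a1 : ¬ Even (1 - i) := by
    rw [Int.even_sub]
    simp [h]
  rw [xv, map_sub, ep_single, ep_single, if_pos a0, if_neg a1, sub_zero]

lemma ep_xv_odd {i : ℤ} (h : ¬ Even i) : ep i xv = -1 := by
  have a0 : ¬ Even (0 - i) := by simpa using h
  have a1 : Even (1 - i) := by
    rw [Int.even_sub]
    simp [h]
  rw [xv, map_sub, ep_single, ep_single, if_neg a0, if_pos a1, zero_sub]

lemma P0_conj {y : GG} (t : GG) (hy : P0 y) : P0 (t⁻¹ * y * t) := by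
  obtain ⟨hk, hm, hv⟩ := hy
  have hv' : (t⁻¹ * y * t).v = sh (-t.k) (D (-t.m) y.v) := by
    have h1 : ∀ i, ep i (t⁻¹ * y * t).m = 0 := by
      intro i
      simp [hk, hm, ep_sh]
    ext i
    simp [hk, hm, ep_sh]
  refine ⟨by simp [hk], fun i => by simp [hk, hm, ep_sh], fun i => ?_⟩
  rw [hv', ep_sh, ep_D]
  exact mul_pos (Real.exp_pos _) (hv _)

lemma P0_mul {y z : GG} (hy : P0 y) (hz : P0 z) : P0 (y * z) := by
  obtain ⟨hk, hm, hv⟩ := hy
  obtain ⟨hk', hm', hv'⟩ := hz
  refine ⟨by simp [hk, hk'], fun i => by simp [hk, hm, hm'], fun i => ?_⟩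
  rw [GG.mul_v, D_eq_self hm, hk, sh_zero_left, map_add]
  exact add_pos (hv i) (hv' i)

theorem Theta_GG : Theta GG := by
  refine ⟨p0, s0, ⟨xv, 0, 0⟩, (⟨0, -xv, 1⟩ : GG)⁻¹, (⟨0, xv, 1⟩ : GG)⁻¹, ?_, ?_, ?_, ?_, ?_⟩
  · intro g h g' h'
    exact (P0_iff _).mpr (P0_mul ((P0_iff _).mp ⟨g, h, rfl⟩) ((P0_iff _).mp ⟨g', h', rfl⟩))
  · intro g h k
    exact (P0_iff _).mpr (P0_conj k ((P0_iff _).mp ⟨g, h, rfl⟩))
  · intro g h e
    have := (P0_iff _).mp ⟨g, h, e.symm⟩
    have h2 := this.2.2 0
    rw [GG.one_v, map_zero] at h2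
    exact lt_irrefl _ h2
  · apply (P0_iff _).mpr
    rw [inv_inv, conj_formula']
    refine ⟨by simp, fun i => by simp, fun i => ?_⟩
    have e : ep i ((⟨xv, 0, 0⟩ : GG) * ⟨D (-xv) (sh 1 xv), 0, 0⟩).v =
        ep i xv + Real.exp (- ep i xv) * ep (i - 1) xv := by
      rw [GG.mul_v]
      simp only [D_zero_left, sh_zero_left, map_add, ep_D, ep_sh, map_neg]
    rw [e]
    by_cases hi : Even i
    · have hi' : ¬ Even (i - 1) := by
        rw [Int.even_sub]
        simp [hi]
      rw [ep_xv_even hi, ep_xv_odd hi']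
      have : Real.exp (-1) < 1 := Real.exp_lt_one_iff.mpr (by norm_num)
      linarith
    · have hi' : Even (i - 1) := by
        rw [Int.even_sub]
        simp [hi]
      rw [ep_xv_odd hi, ep_xv_even hi', neg_neg]
      have : 1 < Real.exp 1 := Real.one_lt_exp_iff.mpr one_pos
      linarith
  · apply (P0_iff _).mpr
    have hinv : (⟨xv, 0, 0⟩ : GG)⁻¹ = ⟨-xv, 0, 0⟩ := by
      ext i
      · simp
      · simp
      · simp
    rw [inv_inv, hinv, conj_formula']
    refine ⟨by simp, fun i => by simp, fun i => ?_⟩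
    have e : ep i ((⟨-xv, 0, 0⟩ : GG) * ⟨D xv (sh 1 (-xv)), 0, 0⟩).v =
        - ep i xv - Real.exp (ep i xv) * ep (i - 1) xv := by
      rw [GG.mul_v]
      simp only [D_zero_left, sh_zero_left, map_add, ep_D, ep_sh, map_neg]
      ring
    rw [e]
    by_cases hi : Even i
    · have hi' : ¬ Even (i - 1) := by
        rw [Int.even_sub]
        simp [hi]
      rw [ep_xv_even hi, ep_xv_odd hi']
      have : 1 < Real.exp 1 := Real.one_lt_exp_iff.mpr one_pos
      linarith
    · have hi' : Even (i - 1) := by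
        rw [Int.even_sub]
        simp [hi]
      rw [ep_xv_odd hi, ep_xv_even hi']
      have : Real.exp (-1) < 1 := Real.exp_lt_one_iff.mpr (by norm_num)
      linarith

/-! ## Transfer to an arbitrary universe and the main theorem -/

lemma orderable_ulift {G : Type} [Group G] (h : Orderable G) : Orderable (ULift.{u} G) := by
  obtain ⟨le, hle⟩ := h
  have hp := hle.isPartialOrder
  refine ⟨fun a b => le a.down b.down, ⟨⟨?_, ?_⟩, ?_⟩⟩
  · exact
      { refl := fun a => hp.refl _
        trans := fun a b c h1 h2 => hp.trans _ _ _ h1 h2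
        antisymm := fun a b h1 h2 => ULift.ext _ _ (hp.antisymm _ _ h1 h2) }
  · intro a b x y h
    exact hle.mul_le _ _ _ _ h
  · intro a b
    exact hle.total _ _

lemma Theta_ulift {G : Type} [Group G] (h : Theta G) : Theta (ULift.{u} G) := by
  obtain ⟨p, s, x, c, d, h1, h2, h3, ⟨g, k, h4⟩, ⟨g', k', h5⟩⟩ := h
  have hcc : ∀ a b a' b' : G, cc (ULift.up.{u} a) (ULift.up b) (ULift.up a') (ULift.up b') =
      ULift.up (cc a b a' b') := fun a b a' b' => rfl
  refine ⟨⟨p⟩, ⟨s⟩, ⟨x⟩, ⟨c⟩, ⟨d⟩, ?_, ?_, ?_, ?_, ?_⟩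
  · rintro ⟨g⟩ ⟨h⟩ ⟨g'⟩ ⟨h'⟩
    obtain ⟨g'', h'', e⟩ := h1 g h g' h'
    exact ⟨⟨g''⟩, ⟨h''⟩, ULift.ext _ _ e⟩
  · rintro ⟨g⟩ ⟨h⟩ ⟨k⟩
    obtain ⟨g'', h'', e⟩ := h2 g h k
    exact ⟨⟨g''⟩, ⟨h''⟩, ULift.ext _ _ e⟩
  · rintro ⟨g⟩ ⟨h⟩ e
    exact h3 g h (congrArg ULift.down e)
  · exact ⟨⟨g⟩, ⟨k⟩, ULift.ext _ _ h4⟩
  · exact ⟨⟨g'⟩, ⟨k'⟩, ULift.ext _ _ h5⟩
end Pool.Agent.Helper55.Ord
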